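import Mathlib

/-!
Project SA (helper167), package SLU: the general statement (Slutsky type argument).
-/

set_option autoImplicit false

namespace Pool.Agent.U446.SA

open Finset Filter Topology MeasureTheory

/-- Chebyshev inequality for the second moment about zero -/
theorem cheb {Ω : Type*} [MeasurableSpace Ω] (μ : Measure Ω) [IsProbabilityMeasure μ]
    (X : Ω → ℝ) (hX : Measurable X) (K : ℝ) (hK : ∀ ω, |X ω| ≤ K) (b : ℝ) (hb : 0 < b) :
    μ.real {ω | b ≤ |X ω|} ≤ (∫ ω, (X ω)^2 ∂μ) / b^2 := by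
  have hint : Integrable (fun ω => (X ω)^2) μ := by
    refine Integrable.of_bound (C := K^2) (hX.pow_const 2).aestronglyMeasurable ?_
    refine Filter.Eventually.of_forall (fun ω => ?_)
    rw [Real.norm_eq_abs, abs_pow]
    exact pow_le_pow_left₀ (abs_nonneg _) (hK ω) 2
  have h := mul_meas_ge_le_integral_of_nonneg (μ := μ) (f := fun ω => (X ω)^2)
    (Filter.Eventually.of_forall (fun ω => sq_nonneg _)) hint (b^2)
  have hset : {ω | b ≤ |X ω|} = {ω | b^2 ≤ (X ω)^2} := by
    ext ω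
    simp only [Set.mem_ofPred_eq]
    rw [← sq_abs (X ω)]
    constructor
    · intro h1
      exact pow_le_pow_left₀ hb.le h1 2
    · intro h1
      exact le_of_sq_le_sq h1 (abs_nonneg _)
  rw [le_div_iff₀ (by positivity), mul_comm]
  have h2 : μ.real {ω | b ≤ |X ω|} = μ.real {ω | b^2 ≤ (X ω)^2} := by rw [hset]
  rw [h2]
  exact h


/-- **SLU**, for every probability space -/
theorem slu_gen {Ω : Type*} [MeasurableSpace Ω] (μ : Measure Ω) [IsProbabilityMeasure μ]
    (ι : Type) [Fintype ι] [Nonempty ι] (Z : ι → ℕ → Ω → ℝ)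
    (Y : ℕ → Ω → ℝ) (κ : ι → ℝ) (a : ℕ → ℝ) (F : ℝ → ℝ) (hκ : ∀ i, 0 < κ i)
    (ha : ∀ n, 0 < a n) (hZ : ∀ i n, Measurable (Z i n)) (hY : ∀ n, Measurable (Y n))
    (hZb : ∀ i n, ∃ K : ℝ, ∀ ω, |Z i n ω| ≤ K) (hYb : ∀ n, ∃ K : ℝ, ∀ ω, |Y n ω| ≤ K)
    (hF : ContinuousOn F (Set.Ici 0)) (hF0 : F 0 = 0)
    (hlim : ∀ t : ℝ, 0 ≤ t → Tendsto (fun n => μ.real {ω | Y n ω ≤ t * a n}) atTop (𝓝 (F t)))
    (hL2 : ∀ i, Tendsto (fun n => (∫ ω, (Z i n ω - κ i * Y n ω)^2 ∂μ) / (a n)^2) atTop (𝓝 0))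
    (t : ι → ℝ) (ht : ∀ i, 0 ≤ t i) :
    Tendsto (fun n => μ.real {ω | ∀ i, Z i n ω ≤ t i * a n}) atTop
        (𝓝 (F (⨅ i, t i / κ i))) := by
  have hbad : ∀ (i : ι) (η : ℝ), 0 < η →
      Tendsto (fun n => μ.real {ω | η * a n ≤ |Z i n ω - κ i * Y n ω|}) atTop (𝓝 0) := by
    intro i η hη
    have h1 : Tendsto (fun n => ((∫ ω, (Z i n ω - κ i * Y n ω)^2 ∂μ) / (a n)^2) / η^2) atTop
        (𝓝 0) := by
      have := (hL2 i).div_const (η^2)
      simpa using this
    refine squeeze_zero (fun n => measureReal_nonneg) (fun n => ?_) h1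
    obtain ⟨K1, hK1⟩ := hZb i n
    obtain ⟨K2, hK2⟩ := hYb n
    have h2 := cheb μ (fun ω => Z i n ω - κ i * Y n ω)
      ((hZ i n).sub ((hY n).const_mul (κ i))) (K1 + κ i * K2) (fun ω => by
        have h3 := hK1 ω
        have h4 := hK2 ω
        calc |Z i n ω - κ i * Y n ω| ≤ |Z i n ω| + |κ i * Y n ω| := abs_sub _ _
          _ = |Z i n ω| + κ i * |Y n ω| := by rw [abs_mul, abs_of_pos (hκ i)]
          _ ≤ K1 + κ i * K2 := add_le_add h3 (mul_le_mul_of_nonneg_left h4 (hκ i).le))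
      (η * a n) (mul_pos hη (ha n))
    refine h2.trans (le_of_eq ?_)
    rw [div_div, mul_pow]
    congr 1
    ring
  set u : ℝ := ⨅ i, t i / κ i with hu
  obtain ⟨i0, hi0⟩ : ∃ i, t i / κ i = u := exists_eq_ciInf_of_finite
  have hule : ∀ i, u * κ i ≤ t i := by
    intro i
    have h1 : u ≤ t i / κ i := ciInf_le (Set.finite_range _).bddBelow i
    rwa [le_div_iff₀ (hκ i)] at h1
  have hu0 : 0 ≤ u := by
    rw [← hi0]
    exact div_nonneg (ht i0) (hκ i0).le
  have hti0 : t i0 = u * κ i0 := by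
    rw [← hi0]
    field_simp [(hκ i0).ne']
  have hcont : ∀ ε : ℝ, 0 < ε → ∃ δ : ℝ, 0 < δ ∧ ∀ v : ℝ, 0 ≤ v → |v - u| < δ →
      |F v - F u| < ε := by
    intro ε hε
    have h1 := Metric.continuousOn_iff.1 hF u hu0 ε hε
    obtain ⟨δ, hδ, h2⟩ := h1
    refine ⟨δ, hδ, fun v hv hvu => ?_⟩
    have h3 := h2 v hv (by rwa [Real.dist_eq])
    rwa [Real.dist_eq] at h3
  rw [tendsto_order]
  constructor
  · intro b hb
    rcases eq_or_lt_of_le hu0 with h0 | hpos
    · rw [← h0, hF0] at hb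
      exact Filter.Eventually.of_forall (fun n => lt_of_lt_of_le hb measureReal_nonneg)
    · obtain ⟨δ, hδ, hc⟩ := hcont ((F u - b) / 2) (by linarith)
      set d : ℝ := min (δ / 2) (u / 2) with hd
      have hd0 : 0 < d := lt_min (by linarith) (by linarith)
      have hdδ : d < δ := lt_of_le_of_lt (min_le_left _ _) (by linarith)
      have hdu : d ≤ u := (min_le_right _ _).trans (by linarith)
      have h1 := hc (u - d) (by linarith) (by
        have : u - d - u = -d := by ring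
        rw [this, abs_neg, abs_of_pos hd0]
        exact hdδ)
      have h2 := (abs_lt.1 h1).1
      have hsum : Tendsto (fun n => ∑ i, μ.real {ω | (κ i * d) * a n ≤ |Z i n ω - κ i * Y n ω|})
          atTop (𝓝 0) := by
        have := tendsto_finsetSum (Finset.univ : Finset ι)
          (fun i _ => hbad i (κ i * d) (mul_pos (hκ i) hd0))
        simpa using this
      have hdiff : Tendsto (fun n => μ.real {ω | Y n ω ≤ (u - d) * a n} -
          ∑ i, μ.real {ω | (κ i * d) * a n ≤ |Z i n ω - κ i * Y n ω|}) atTop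
          (𝓝 (F (u - d) - 0)) := (hlim (u - d) (by linarith)).sub hsum
      have hev := (tendsto_order.1 hdiff).1 b (by linarith)
      filter_upwards [hev] with n hn
      refine lt_of_lt_of_le hn ?_
      have hsub : {ω | Y n ω ≤ (u - d) * a n} ⊆ {ω | ∀ i, Z i n ω ≤ t i * a n} ∪
          ⋃ i, {ω | (κ i * d) * a n ≤ |Z i n ω - κ i * Y n ω|} := by
        intro ω hω
        by_cases hall : ∀ i, Z i n ω ≤ t i * a n
        · exact Or.inl hall
        · right
          push Not at hall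
          obtain ⟨i, hi⟩ := hall
          refine Set.mem_iUnion.2 ⟨i, ?_⟩
          have h3 : Y n ω ≤ (u - d) * a n := hω
          have h4 : κ i * Y n ω ≤ κ i * ((u - d) * a n) :=
            mul_le_mul_of_nonneg_left h3 (hκ i).le
          have h5 : u * κ i * a n ≤ t i * a n := mul_le_mul_of_nonneg_right (hule i) (ha n).le
          have h6 : (κ i * d) * a n ≤ Z i n ω - κ i * Y n ω := by nlinarith
          exact h6.trans (le_abs_self _)
      have h7 := (measureReal_mono (μ := μ) hsub).trans (measureReal_union_le _ _)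
      have h8 := measureReal_iUnion_fintype_le (μ := μ)
        (fun i => {ω | (κ i * d) * a n ≤ |Z i n ω - κ i * Y n ω|})
      linarith
  · intro b hb
    obtain ⟨δ, hδ, hc⟩ := hcont ((b - F u) / 2) (by linarith)
    set d : ℝ := δ / 2 with hd
    have hd0 : 0 < d := by rw [hd]; linarith
    have h1 := hc (u + d) (by linarith) (by
      have : u + d - u = d := by ring
      rw [this, abs_of_pos hd0]
      rw [hd]
      linarith)
    have h2 := (abs_lt.1 h1).2
    have hsum : Tendsto (fun n => μ.real {ω | Y n ω ≤ (u + d) * a n} +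
        μ.real {ω | (κ i0 * d) * a n ≤ |Z i0 n ω - κ i0 * Y n ω|}) atTop (𝓝 (F (u + d) + 0)) :=
      (hlim (u + d) (by linarith)).add (hbad i0 (κ i0 * d) (mul_pos (hκ i0) hd0))
    have hev := (tendsto_order.1 hsum).2 b (by linarith)
    filter_upwards [hev] with n hn
    refine lt_of_le_of_lt ?_ hn
    have hsub : {ω | ∀ i, Z i n ω ≤ t i * a n} ⊆ {ω | Y n ω ≤ (u + d) * a n} ∪
        {ω | (κ i0 * d) * a n ≤ |Z i0 n ω - κ i0 * Y n ω|} := by
      intro ω hω
      by_cases hy : Y n ω ≤ (u + d) * a n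
      · exact Or.inl hy
      · right
        push Not at hy
        have h3 : Z i0 n ω ≤ t i0 * a n := hω i0
        rw [hti0] at h3
        have h4 : κ i0 * ((u + d) * a n) ≤ κ i0 * Y n ω :=
          mul_le_mul_of_nonneg_left hy.le (hκ i0).le
        have h6 : (κ i0 * d) * a n ≤ -(Z i0 n ω - κ i0 * Y n ω) := by nlinarith
        exact h6.trans (neg_le_abs _)
    exact (measureReal_mono (μ := μ) hsub).trans (measureReal_union_le _ _)

end Pool.Agent.U446.SA
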