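import Pool.Agent.U167.SA.Stm8
import Pool.Agent.U446.SA.SLUG

/-!
Project SA (helper167), package SLU.
-/

set_option autoImplicit false

namespace Pool.Agent.U167.SA

open H974 Finset Filter Topology MeasureTheory

theorem t_SLU : SluStm := by
  intro ι _ _ Z Y κ a F hκ ha hZ hY hZb hYb _ hF hF0 hlim hL2 t ht
  have : IsProbabilityMeasure percE := by
    unfold percE
    infer_instance
  exact Pool.Agent.U446.SA.slu_gen percE ι Z Y κ a F hκ ha hZ hY hZb hYb hF hF0 hlim hL2 t ht

end Pool.Agent.U167.SA
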